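import Pool.Agent.H68.LCS.Defs

/-!
# MP_5607ba_lc, strong transfer, part A: canonical labels, targets (page H7_LQ.md, section A)
-/

set_option autoImplicit false

open Set Filter Topology
open scoped Pointwise

namespace Pool.Agent.H68.LCS

open Pool.Agent.H93.CP Pool.Agent.H7.LP Pool.Agent.H7.LQ

/-! ### General facts -/

/-- KRN. Dense measurable selectors. -/
def T_KRN : Prop := ∀ (Ω E : Type) [MeasurableSpace Ω] [TopologicalSpace E] [PolishSpace E]
  [Nonempty E] [MeasurableSpace E] [BorelSpace E] (Φ : Ω → Set E), (∀ w, IsClosed (Φ w)) →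
    (∀ w, (Φ w).Nonempty) → (∀ U, IsOpen U → MeasurableSet {w | (Φ w ∩ U).Nonempty}) →
    ∃ nu : ℕ → Ω → E, (∀ n, Measurable (nu n)) ∧ (∀ n w, nu n w ∈ Φ w) ∧
      ∀ w, ∀ g ∈ Φ w, ∀ O ∈ 𝓝 g, ∃ n, nu n w ∈ O

/-- BFX. A countable base. -/
def T_BFX : Prop := ∀ (F : Type) [TopologicalSpace F] [T3Space F] [SecondCountableTopology F],
  Nonempty (Bf F)

/-- PTX. The selected point of a compact set. -/
def T_PTX : Prop := ∀ (F : Type) [TopologicalSpace F] [T3Space F] (B : Bf F) (K : Set F),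
  IsCompact K → K.Nonempty → ∃ z ∈ K, (∀ n, z ∈ sl B K n) ∧
    (∀ z', (∀ n, z' ∈ sl B K n) → z' = z) ∧
    ∀ O : Set F, IsOpen O → (z ∈ O ↔ ∃ n, (sl B K n ∩ closure (B.U n)).Nonempty ∧
      closure (B.U n) ⊆ O)

/-- MSL. Measurability of the shrinking. -/
def T_MSL : Prop := ∀ (Ω F : Type) [MeasurableSpace Ω] [TopologicalSpace F] (B : Bf F)
  (K : Ω → Set F), (∀ A, IsClosed A → MeasurableSet {w | (K w ∩ A).Nonempty}) →
    ∀ (n : ℕ) (A : Set F), IsClosed A → MeasurableSet {w | (sl B (K w) n ∩ A).Nonempty}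

/-- MPT. Measurability of the selected point. -/
def T_MPT : Prop := ∀ (Ω F : Type) [MeasurableSpace Ω] [TopologicalSpace F] [T3Space F]
  [SecondCountableTopology F] [MeasurableSpace F] [BorelSpace F] (B : Bf F) (K : Ω → Set F)
  (d : Ω → F), (∀ w, IsCompact (K w)) →
    (∀ A, IsClosed A → MeasurableSet {w | (K w ∩ A).Nonempty}) → Measurable d →
    Measurable fun w => slp B (K w) (d w)

/-- PRJ. Projection along a compact set. -/
def T_PRJ : Prop := ∀ (A S : Type) [TopologicalSpace A] [TopologicalSpace S] (N : Set S)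
  (E : Set (A × S)), IsCompact N → IsClosed E → IsClosed {a | ∃ g ∈ N, (a, g) ∈ E}

/-- FSG. Countable unions of closed sets. -/
def T_FSG : Prop :=
  (∀ (A : Type) [TopologicalSpace A] (E : Set A), IsClosed E → FS E) ∧
  (∀ (A : Type) [TopologicalSpace A] (E E' : Set A), FS E → FS E' → FS (E ∪ E') ∧ FS (E ∩ E')) ∧
  (∀ (A : Type) [TopologicalSpace A] [T3Space A] [SecondCountableTopology A] (E : Set A),
    IsOpen E → FS E) ∧
  (∀ (A : Type) [TopologicalSpace A] [MeasurableSpace A] [BorelSpace A] (E : Set A), FS E →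
    MeasurableSet E) ∧
  ∀ (A S : Type) [TopologicalSpace A] [TopologicalSpace S] (N : Set S) (E : Set (A × S)),
    IsCompact N → FS E → FS {a | ∃ g ∈ N, (a, g) ∈ E}

/-! ### The abstract theorem -/

/-- YME. `YY` is Borel. -/
def T_YME : Prop := ∀ (Γ F : Type) [Group Γ] [TopologicalSpace Γ] [IsTopologicalGroup Γ]
  [PolishSpace Γ] [TopologicalSpace F] [T3Space F] [SecondCountableTopology F]
  [MeasurableSpace F] [BorelSpace F] [MulAction Γ F] [ContinuousSMul Γ F] (D : LCd Γ F)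
  (B : Bf F) (t : ℕ), MeasurableSet (YY D B t)

/-- YEX. Each point is in some `YY`. -/
def T_YEX : Prop := ∀ (Γ F : Type) [Group Γ] [TopologicalSpace Γ] [IsTopologicalGroup Γ]
  [PolishSpace Γ] [TopologicalSpace F] [T3Space F] [SecondCountableTopology F]
  [MulAction Γ F] [ContinuousSMul Γ F] (D : LCd Γ F) (B : Bf F) (y : F), ∃ t, y ∈ YY D B t

/-- KEQ. The compact pieces of the orbit agree. -/
def T_KEQ : Prop := ∀ (Γ F : Type) [Group Γ] [TopologicalSpace Γ] [TopologicalSpace F]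
  [MulAction Γ F] (D : LCd Γ F) (B : Bf F) (t : ℕ) (y : F), ∀ c ∈ D.C, y ∈ XX D B t →
    c • y ∈ XX D B t → KS D B t (c • y) = KS D B t y

/-- KCP. They are compact, and contain the point. -/
def T_KCP : Prop := ∀ (Γ F : Type) [Group Γ] [TopologicalSpace Γ] [IsTopologicalGroup Γ]
  [TopologicalSpace F] [MulAction Γ F] [ContinuousSMul Γ F] (D : LCd Γ F) (B : Bf F) (t : ℕ)
  (y : F), IsCompact (KS D B t y) ∧ (y ∈ XX D B t → y ∈ KS D B t y) ∧
    IsCompact D.C ∧ (1 : Γ) ∈ D.C ∧ (∀ c ∈ D.C, c⁻¹ ∈ D.C) ∧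
    ∀ w ∈ D.W 0, ∃ c ∈ D.C, ∀ z : F, w • z = c • z

/-- LCO. `YY` and the selected point are locally constant on the orbits. -/
def T_LCO : Prop := ∀ (Γ F : Type) [Group Γ] [TopologicalSpace Γ] [IsTopologicalGroup Γ]
  [TopologicalSpace F] [T3Space F] [MulAction Γ F] [ContinuousSMul Γ F] (D : LCd Γ F)
  (B : Bf F) (t : ℕ) (y : F), y ∈ YY D B t → y ∈ XX D B t ∧ (∃ γ : Γ, ss D B t y = γ • y) ∧
    ∃ O ∈ 𝓝 (1 : Γ), ∀ g ∈ O, g • y ∈ YY D B t ∧ ss D B t (g • y) = ss D B t y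

/-- SME. The selected point is a Borel function. -/
def T_SME : Prop := ∀ (Γ F : Type) [Group Γ] [TopologicalSpace Γ] [IsTopologicalGroup Γ]
  [TopologicalSpace F] [T3Space F] [SecondCountableTopology F] [MeasurableSpace F]
  [BorelSpace F] [MulAction Γ F] [ContinuousSMul Γ F] (D : LCd Γ F) (B : Bf F) (t : ℕ),
    Measurable (ss D B t)

/-- CSM. The set of the canonical points. -/
def T_CSM : Prop := ∀ (Γ F : Type) [Group Γ] [TopologicalSpace Γ] [IsTopologicalGroup Γ]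
  [PolishSpace Γ] [TopologicalSpace F] [T3Space F] [SecondCountableTopology F]
  [MeasurableSpace F] [BorelSpace F] [MulAction Γ F] [ContinuousSMul Γ F] (D : LCd Γ F)
  (B : Bf F), MeasurableSet (CanS D B) ∧
    (∀ (t : ℕ) (γ : Γ) (y : F), γ • y ∈ YY D B t → ss D B t (γ • y) ∈ CanS D B) ∧
    ∃ h : ℕ → Γ, (∀ y : F, ∃ t i, h i • y ∈ YY D B t) ∧ ∀ (y : F) (γ : Γ), γ • y ∈ CanS D B →
      ∃ t i, h i • y ∈ YY D B t ∧ ss D B t (h i • y) = γ • y

/-- DMR. Compact sets in an open set, modulo the kernel. -/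
def T_DMR : Prop := ∀ (Γ F : Type) [Group Γ] [TopologicalSpace Γ] [IsTopologicalGroup Γ]
  [PolishSpace Γ] [MulAction Γ F] (D : LCd Γ F) (U : Set Γ), IsOpen U →
    ∃ E : ℕ → Set Γ, (∀ m, IsCompact (E m)) ∧
      (∀ m, ∀ γ ∈ E m, ∃ u ∈ U, ∀ y : F, γ • y = u • y) ∧
      ∀ u ∈ U, ∃ m, ∃ γ ∈ E m, ∀ y : F, u • y = γ • y

/-- HIT. Measurability of the hits of the sets of solutions. -/
def T_HIT : Prop := ∀ (Γ F : Type) [Group Γ] [TopologicalSpace Γ] [IsTopologicalGroup Γ]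
  [PolishSpace Γ] [TopologicalSpace F] [T3Space F] [SecondCountableTopology F]
  [MeasurableSpace F] [BorelSpace F] [MulAction Γ F] [ContinuousSMul Γ F] (_ : LCd Γ F)
  (f : F → F) (U : Set Γ), Measurable f → IsOpen U → MeasurableSet {y | ∃ γ ∈ U, γ • y = f y}

/-- SEC. The abstract theorem. -/
def T_SEC : Prop := ∀ (Γ F : Type) [Group Γ] [TopologicalSpace Γ] [IsTopologicalGroup Γ]
  [PolishSpace Γ] [MeasurableSpace Γ] [BorelSpace Γ] [TopologicalSpace F] [T3Space F]
  [SecondCountableTopology F] [MeasurableSpace F] [BorelSpace F] [MulAction Γ F]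
  [ContinuousSMul Γ F] (_ : LCd Γ F),
    ∃ S : Set F, MeasurableSet S ∧ (∀ y : F, ∃ γ : Γ, γ • y ∈ S) ∧
      ∃ σ : ℕ → F → Γ, (∀ n, Measurable (σ n)) ∧ (∀ (n : ℕ) (y : F), σ n y • y ∈ S) ∧
        ∀ (y : F) (γ : Γ), γ • y ∈ S → ∀ O ∈ 𝓝 γ, ∃ n, σ n y ∈ O ∧ σ n y • y = γ • y

/-! ### The space of closed invariant sets -/

/-- LCG. Compact neighbourhoods modulo `R`. -/
def T_LCG : Prop := ∀ (G : Type) [Group G] [TopologicalSpace G] [IsTopologicalGroup G]
  [PolishSpace G] (R H : Subgroup G), Piece R H → Nonempty (LCG R H)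

/-- PRX. The pairs. -/
def T_PRX : Prop := ∀ (G : Type) [Group G] [TopologicalSpace G] [IsTopologicalGroup G]
  [PolishSpace G] (R H : Subgroup G), Piece R H → Nonempty (Pr R)

/-- LIT. The countable subbase and its closed companions: for an open set `U` met by `y n` there is
a pair whose open set is met, and all sequences whose `n`-th set meets the compact set of the pair
meet `U`. The same for disjointness from a compact set. -/
def T_LIT : Prop := ∀ (G : Type) [Group G] [TopologicalSpace G] [IsTopologicalGroup G]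
  (R : Subgroup G) (P : Pr R),
    (∀ (y : Fe R) (n i : ℕ), (y.y n ∩ P.U i).Nonempty → (y.y n ∩ P.D i).Nonempty) ∧
    (∀ (y : Fe R) (n : ℕ) (U : Set G), IsOpen U → (y.y n ∩ U).Nonempty →
      ∃ i, (y.y n ∩ P.U i).Nonempty ∧
        ∀ z : Fe R, (z.y n ∩ P.D i).Nonempty → (z.y n ∩ U).Nonempty) ∧
    ∀ (y : Fe R) (n : ℕ) (D : Set G), IsCompact D → ¬ (y.y n ∩ D).Nonempty →
      ∃ I : Finset ℕ, (∀ i ∈ I, ¬ (y.y n ∩ P.D i).Nonempty) ∧ (∀ a ∈ D, ∃ i ∈ I, a ∈ P.U i) ∧
        ∀ z : Fe R, (∀ i ∈ I, ¬ (z.y n ∩ P.U i).Nonempty) → ¬ (z.y n ∩ D).Nonempty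

/-- RGN. Regularity from a subbase. -/
def T_RGN : Prop := ∀ (F : Type) (S : Set (Set F)),
  (∀ s ∈ S, ∀ y ∈ s, ∃ t ⊆ s, IsClosed[TopologicalSpace.generateFrom S] t ∧
    t ∈ @nhds F (TopologicalSpace.generateFrom S) y) →
    @RegularSpace F (TopologicalSpace.generateFrom S)

/-- FT3. Separation. -/
def T_FT3 : Prop := ∀ (G : Type) [Group G] [TopologicalSpace G] [IsTopologicalGroup G]
  (R : Subgroup G), Pr R → T3Space (Fe R)

/-- FSC. Countable base. -/
def T_FSC : Prop := ∀ (G : Type) [Group G] [TopologicalSpace G] [IsTopologicalGroup G]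
  (R : Subgroup G), Pr R → SecondCountableTopology (Fe R)

/-- FAC. The action is continuous. -/
def T_FAC : Prop := ∀ (G : Type) [Group G] [TopologicalSpace G] [IsTopologicalGroup G]
  (R H : Subgroup G) (hP : Piece R H), Pr R →
    @ContinuousSMul H (Fe R) (actF hP).toSMul _ _

/-- FLC. It is locally compact modulo the kernel. -/
def T_FLC : Prop := ∀ (G : Type) [Group G] [TopologicalSpace G] [IsTopologicalGroup G]
  (R H : Subgroup G) (hP : Piece R H), LCG R H → Nonempty (@LCd H (Fe R) _ _ (actF hP))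

/-- FME. Measurable maps into the space. -/
def T_FME : Prop := ∀ (G X : Type) [Group G] [TopologicalSpace G] [IsTopologicalGroup G]
  [MeasurableSpace X] (R : Subgroup G) (f : X → Fe R), Pr R →
    (∀ (n : ℕ) (U : Set G), IsOpen U → MeasurableSet {x | ((f x).y n ∩ U).Nonempty}) →
    Measurable f

/-- FLB. The labels are in the space. -/
def T_FLB : Prop := ∀ (G : Type) [Group G] [TopologicalSpace G] [IsTopologicalGroup G]
  (R : Subgroup G),
    (∀ y : ℕ → Set G, (∀ n, IsClosed (y n)) → lab R y = y →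
      ∀ n, ∀ a ∈ y n, ∀ r ∈ R, a * r ∈ y n) ∧
    (∀ (c : ℕ → Set G) (n : ℕ), IsClosed (lab R c n)) ∧
    ∀ (c : ℕ → Set G) (n : ℕ), ∀ a ∈ lab R c n, ∀ r ∈ R, a * r ∈ lab R c n

/-- FLM. Measurability of the hits of labels. -/
def T_FLM : Prop := ∀ (G X : Type) [Group G] [TopologicalSpace G] [IsTopologicalGroup G]
  [SecondCountableTopology G] [MeasurableSpace G] [BorelSpace G] [MeasurableSpace X] (L : LPD G)
  (M : Subgroup G) [MulAction M X] (Y : Hit M X) (k n : ℕ) (U : Set G), IsOpen U →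
    MeasurableSet {p : X × G | (lb L Y k p.1 p.2 n ∩ U).Nonempty}

/-- FRP. Countably many cosets. -/
def T_FRP : Prop := ∀ (G : Type) [Group G] [TopologicalSpace G] [IsTopologicalGroup G]
  [PolishSpace G] (H : Subgroup G), IsOpen (H : Set G) →
    ∃ (g : ℕ → G) (j : G → ℕ), ∀ a, a * (g (j a))⁻¹ ∈ H ∧ IsOpen {b | j b = j a}

/-! ### The result -/

/-- CAN. Canonical labels. -/
def T_CAN : Prop := ∀ (G X : Type) [Group G] [TopologicalSpace G] [IsTopologicalGroup G]
  [PolishSpace G] [MeasurableSpace G] [BorelSpace G] [MeasurableSpace X] [StandardBorelSpace X]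
  (L : LPD G) (M : Subgroup G) [MulAction M X] (Y : Hit M X), Nonempty (Canon L Y)

end Pool.Agent.H68.LCS
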