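import Pool.Agent.H68.LCS.Targets

/-!
# CAN: canonical labels exist (MP_5607ba_lc, strong transfer, part A)
-/

set_option autoImplicit false

open Set Filter Topology
open scoped Pointwise

namespace Pool.Agent.H68.LCS

open Pool.Agent.H93.CP Pool.Agent.H7.LP Pool.Agent.H7.LQ

/-- the label as a point of the space -/
def lbF (h9 : T_FLB) {G X : Type} [Group G] [TopologicalSpace G] [IsTopologicalGroup G]
    {M : Subgroup G} [MeasurableSpace X] [MulAction M X] (L : LPD G) (Y : Hit M X) (k : ℕ) (x : X)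
    (g : G) : Fe (L.R k) where
  y := lb L Y k x g
  cl n := (h9 G (L.R k)).2.1 _ n
  inv n := (h9 G (L.R k)).2.2 _ n

theorem pf_CAN (h1 : T_SEC) (h2 : T_LCG) (h3 : T_PRX) (h4 : T_FT3) (h5 : T_FSC) (h6 : T_FAC)
    (h7 : T_FLC) (h8 : T_FME) (h9 : T_FLB) (h10 : T_FLM) (h11 : T_FRP)
    (h12 : Pool.Agent.H7.LP.T_LAB) : T_CAN := by
  intro G X _ _ _ _ _ _ _ _ L M _ Y
  have hPr : ∀ k, Nonempty (Pr (L.R k)) := fun k => h3 G (L.R k) (L.H k) (L.piece k)
  have key : ∀ k, ∃ (S : Set (Fe (L.R k))) (σ : ℕ → Fe (L.R k) → L.H k), MeasurableSet S ∧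
      (∀ y, ∃ γ : L.H k, mvF (L.piece k) γ y ∈ S) ∧ (∀ n, Measurable (σ n)) ∧
      (∀ n y, mvF (L.piece k) (σ n y) y ∈ S) ∧
      ∀ (y : Fe (L.R k)) (γ : L.H k), mvF (L.piece k) γ y ∈ S → ∀ O ∈ 𝓝 γ,
        ∃ n, σ n y ∈ O ∧ mvF (L.piece k) (σ n y) y = mvF (L.piece k) γ y := by
    intro k
    have hP := L.piece k
    obtain ⟨P⟩ := h3 G (L.R k) (L.H k) hP
    obtain ⟨D0⟩ := h2 G (L.R k) (L.H k) hP
    have i1 : T3Space (Fe (L.R k)) := h4 G _ P
    have i2 : SecondCountableTopology (Fe (L.R k)) := h5 G _ P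
    let i3 : MulAction (L.H k) (Fe (L.R k)) := actF hP
    have i4 : ContinuousSMul (L.H k) (Fe (L.R k)) := h6 G _ _ hP P
    obtain ⟨D⟩ := h7 G _ _ hP D0
    have i5 : PolishSpace (L.H k) := hP.op.polishSpace
    obtain ⟨S, a, b, σ, c, d, e⟩ := h1 (L.H k) (Fe (L.R k)) D
    exact ⟨S, σ, a, b, c, d, e⟩
  choose S σ hS hex hσm hσS hall using key
  have hlb : ∀ (k : ℕ) (x : X) (h : L.H k) (g : G),
      lbF h9 L Y k x ((h : G) * g) = mvF (L.piece k) h (lbF h9 L Y k x g) := by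
    intro k x h g
    apply Fe.ext
    change lab (L.R k) (tr ((h : G) * g) (Y.C x)) = tr (h : G) (lab (L.R k) (tr g (Y.C x)))
    rw [tr_mul, (h12 G).2.1 (L.R k) (L.H k) _ (L.piece k) _ h.2]
  have hjm : ∀ k, Measurable (fun p : X × G => lbF h9 L Y k p.1 p.2) := by
    intro k
    obtain ⟨P⟩ := hPr k
    refine h8 G (X × G) (L.R k) (fun p : X × G => lbF h9 L Y k p.1 p.2) P ?_
    intro n U hU
    exact h10 G X L M Y k n U hU
  have hcan : ∀ (k : ℕ) (x : X) (g : G),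
      (∃ (c : ∀ n, IsClosed (lb L Y k x g n))
        (i : ∀ n, ∀ a ∈ lb L Y k x g n, ∀ r ∈ L.R k, a * r ∈ lb L Y k x g n),
        (⟨lb L Y k x g, c, i⟩ : Fe (L.R k)) ∈ S k) ↔ lbF h9 L Y k x g ∈ S k := by
    intro k x g
    constructor
    · rintro ⟨c, i, h⟩
      exact h
    · intro h
      exact ⟨(lbF h9 L Y k x g).cl, (lbF h9 L Y k x g).inv, h⟩
  have hrep : ∀ k, ∃ (g : ℕ → G) (j : G → ℕ), ∀ a, a * (g (j a))⁻¹ ∈ L.H k ∧
      IsOpen {b | j b = j a} := fun k => h11 G (L.H k) (L.piece k).op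
  choose gi j hj using hrep
  refine ⟨{
    Can := fun k y => ∃ (c : ∀ n, IsClosed (y n))
      (i : ∀ n, ∀ a ∈ y n, ∀ r ∈ L.R k, a * r ∈ y n), (⟨y, c, i⟩ : Fe (L.R k)) ∈ S k
    ex := ?_
    nu := fun k n x => ((σ k (Nat.unpair n).2 (lbF h9 L Y k x (gi k (Nat.unpair n).1)) : L.H k) : G)
      * gi k (Nat.unpair n).1
    meas := ?_
    can := ?_
    all := ?_
    bor := ?_ }⟩
  · intro k y hc hl
    have hi := (h9 G (L.R k)).1 y hc hl
    obtain ⟨γ, hγ⟩ := hex k ⟨y, hc, hi⟩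
    exact ⟨γ, γ.2, (mvF (L.piece k) γ ⟨y, hc, hi⟩).cl, (mvF (L.piece k) γ ⟨y, hc, hi⟩).inv, hγ⟩
  · intro k n
    have m1 : Measurable (fun x : X => lbF h9 L Y k x (gi k (Nat.unpair n).1)) :=
      (hjm k).comp (measurable_id.prodMk measurable_const)
    have m2 := (hσm k (Nat.unpair n).2).comp m1
    exact (measurable_subtype_coe.comp m2).mul_const _
  · intro k n x
    rw [hcan, hlb]
    exact hσS k _ _
  · intro k x g hg O hO
    rw [hcan] at hg
    have e1 : lbF h9 L Y k x g = mvF (L.piece k) ⟨g * (gi k (j k g))⁻¹, (hj k g).1⟩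
        (lbF h9 L Y k x (gi k (j k g))) := by
      rw [← hlb]
      congr 1
      simp
    rw [e1] at hg
    have hO' : (fun h : L.H k => (h : G) * gi k (j k g)) ⁻¹' O ∈
        𝓝 (⟨g * (gi k (j k g))⁻¹, (hj k g).1⟩ : L.H k) := by
      have hc : Continuous (fun h : L.H k => (h : G) * gi k (j k g)) :=
        continuous_subtype_val.mul continuous_const
      apply hc.continuousAt.preimage_mem_nhds
      simpa using hO
    obtain ⟨n, hn1, hn2⟩ := hall k _ _ hg _ hO'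
    refine ⟨Nat.pair (j k g) n, ?_, ?_⟩
    · simp only [Nat.unpair_pair]
      exact hn1
    · simp only [Nat.unpair_pair]
      have e2 := hlb k x (σ k n (lbF h9 L Y k x (gi k (j k g)))) (gi k (j k g))
      rw [hn2, ← e1] at e2
      exact congrArg Fe.y e2
  · intro k
    have m1 : {p : X × G | ∃ (c : ∀ n, IsClosed (lb L Y k p.1 p.2 n))
        (i : ∀ n, ∀ a ∈ lb L Y k p.1 p.2 n, ∀ r ∈ L.R k, a * r ∈ lb L Y k p.1 p.2 n),
        (⟨lb L Y k p.1 p.2, c, i⟩ : Fe (L.R k)) ∈ S k} =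
        (fun p : X × G => lbF h9 L Y k p.1 p.2) ⁻¹' (S k) := by
      ext p
      exact hcan k p.1 p.2
    rw [m1]
    exact hjm k (hS k)

end Pool.Agent.H68.LCS
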