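import Pool.Agent.H68.LCS.Targets

/-!
# FME: measurable maps into the space of closed invariant sets (MP_5607ba_lc, part A)
-/

set_option autoImplicit false

open Set Filter Topology
open scoped Pointwise

namespace Pool.Agent.H68.LCS

open Pool.Agent.H93.CP Pool.Agent.H7.LP Pool.Agent.H7.LQ

theorem pf_FME (h1 : T_LIT) (h2 : T_FSC) : T_FME := by
  intro G X _ _ _ _ R f P hf
  have i : SecondCountableTopology (Fe R) := h2 G R P
  have hb : (borel (Fe R)) = _ := borel_eq_generateFrom_of_subbasis (α := Fe R) rfl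
  have hm : ∀ V ∈ ({V | ∃ (n : ℕ) (U : Set G), IsOpen U ∧ V = {y : Fe R | (y.y n ∩ U).Nonempty}} ∪
      {V | ∃ (n : ℕ) (D : Set G), IsCompact D ∧ V = {y : Fe R | ¬ (y.y n ∩ D).Nonempty}} :
        Set (Set (Fe R))), MeasurableSet (f ⁻¹' V) := by
    rintro V (⟨n, U, hU, rfl⟩ | ⟨n, D, hD, rfl⟩)
    · exact hf n U hU
    · have h3 : f ⁻¹' {y : Fe R | ¬ (y.y n ∩ D).Nonempty} =
          ⋃ (I : Finset ℕ) (_ : ∀ a ∈ D, ∃ i ∈ I, a ∈ P.U i),
            ⋂ i ∈ I, {x | ((f x).y n ∩ P.U i).Nonempty}ᶜ := by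
        ext x
        simp only [mem_preimage, mem_ofPred_eq, mem_iUnion, mem_iInter, mem_compl_iff,
          exists_prop]
        constructor
        · intro hx
          obtain ⟨I, hI1, hI2, -⟩ := (h1 G R P).2.2 (f x) n D hD hx
          refine ⟨I, hI2, fun i hi hne => hI1 i hi ((h1 G R P).1 (f x) n i hne)⟩
        · rintro ⟨I, hI1, hI2⟩ ⟨a, ha1, ha2⟩
          obtain ⟨i, hi, hai⟩ := hI1 a ha2
          exact hI2 i hi ⟨a, ha1, hai⟩
      rw [h3]
      refine MeasurableSet.iUnion (fun I => MeasurableSet.iUnion (fun _ => ?_))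
      exact MeasurableSet.biInter I.countable_toSet (fun i _ => (hf n _ (P.opn i)).compl)
  have h4 : @Measurable X (Fe R) _ (MeasurableSpace.generateFrom _) f := measurable_generateFrom hm
  rw [← hb] at h4
  exact h4

end Pool.Agent.H68.LCS
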