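import Pool.Agent.H68.LCS.Targets

/-!
# SEC: the abstract theorem on canonical points (MP_5607ba_lc, strong transfer, part A)
-/

set_option autoImplicit false

open Set Filter Topology
open scoped Pointwise

namespace Pool.Agent.H68.LCS

theorem pf_SEC (h1 : T_LCO) (h2 : T_CSM) (h3 : T_YME) (h4 : T_SME) (h5 : T_HIT) (h6 : T_KRN)
    (h7 : T_BFX) : T_SEC := by
  intro Γ F _ _ _ _ _ _ _ _ _ _ _ _ _ D
  obtain ⟨B⟩ := h7 F
  obtain ⟨hS, hss, h, hex, hall⟩ := h2 Γ F D B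
  classical
  have hΩm : ∀ e : ℕ, MeasurableSet {y : F | h (Nat.unpair e).2 • y ∈ YY D B (Nat.unpair e).1} :=
    fun e => (h3 Γ F D B _).preimage (continuous_const_smul _).measurable
  have hfm : ∀ e : ℕ, Measurable
      (fun y : F => ss D B (Nat.unpair e).1 (h (Nat.unpair e).2 • y)) :=
    fun e => (h4 Γ F D B _).comp (continuous_const_smul _).measurable
  have hcov : ∀ y : F, ∃ e : ℕ, h (Nat.unpair e).2 • y ∈ YY D B (Nat.unpair e).1 := by
    intro y
    obtain ⟨t, i, hti⟩ := hex y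
    exact ⟨Nat.pair t i, by simpa using hti⟩
  have hfS : ∀ (e : ℕ) (y : F), h (Nat.unpair e).2 • y ∈ YY D B (Nat.unpair e).1 →
      ss D B (Nat.unpair e).1 (h (Nat.unpair e).2 • y) ∈ CanS D B ∧
      ∃ γ : Γ, γ • y = ss D B (Nat.unpair e).1 (h (Nat.unpair e).2 • y) := by
    intro e y hy
    refine ⟨hss _ _ _ hy, ?_⟩
    obtain ⟨γ, hγ⟩ := (h1 Γ F D B _ _ hy).2.1
    exact ⟨γ * h (Nat.unpair e).2, by rw [mul_smul, hγ]⟩
  -- the default function
  obtain ⟨f0, hf0m, hf0S⟩ : ∃ f0 : F → F, Measurable f0 ∧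
      ∀ y, f0 y ∈ CanS D B ∧ ∃ γ : Γ, γ • y = f0 y := by
    refine ⟨fun y => ss D B (Nat.unpair (Nat.find (hcov y))).1
      (h (Nat.unpair (Nat.find (hcov y))).2 • y), ?_, ?_⟩
    · exact Measurable.find (f := fun (e : ℕ) (y : F) =>
        ss D B (Nat.unpair e).1 (h (Nat.unpair e).2 • y)) hfm hΩm hcov
    · intro y
      exact hfS _ y (Nat.find_spec (hcov y))
  -- the functions for all indices
  let f' : ℕ → F → F := fun e y =>
    if h (Nat.unpair e).2 • y ∈ YY D B (Nat.unpair e).1 then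
      ss D B (Nat.unpair e).1 (h (Nat.unpair e).2 • y) else f0 y
  have hf'm : ∀ e, Measurable (f' e) := fun e => Measurable.ite (hΩm e) (hfm e) hf0m
  have hf'S : ∀ e y, f' e y ∈ CanS D B ∧ ∃ γ : Γ, γ • y = f' e y := by
    intro e y
    by_cases hy : h (Nat.unpair e).2 • y ∈ YY D B (Nat.unpair e).1
    · have : f' e y = ss D B (Nat.unpair e).1 (h (Nat.unpair e).2 • y) := if_pos hy
      rw [this]
      exact hfS e y hy
    · have : f' e y = f0 y := if_neg hy
      rw [this]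
      exact hf0S y
  have hk : ∀ e : ℕ, ∃ nu : ℕ → F → Γ, (∀ n, Measurable (nu n)) ∧
      (∀ n w, nu n w ∈ {γ : Γ | γ • w = f' e w}) ∧
      ∀ w, ∀ g ∈ {γ : Γ | γ • w = f' e w}, ∀ O ∈ 𝓝 g, ∃ n, nu n w ∈ O := by
    intro e
    refine h6 F Γ (fun y => {γ : Γ | γ • y = f' e y}) ?_ ?_ ?_
    · intro y
      exact isClosed_eq (continuous_id.smul continuous_const) continuous_const
    · intro y
      exact (hf'S e y).2
    · intro U hU
      have h8 := h5 Γ F D (f' e) U (hf'm e) hU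
      have h9 : {w : F | ({γ : Γ | γ • w = f' e w} ∩ U).Nonempty} =
          {y : F | ∃ γ ∈ U, γ • y = f' e y} := by
        ext y
        constructor
        · rintro ⟨γ, hγ1, hγ2⟩
          exact ⟨γ, hγ2, hγ1⟩
        · rintro ⟨γ, hγ1, hγ2⟩
          exact ⟨γ, hγ2, hγ1⟩
      rw [h9]
      exact h8
  choose nu hnu1 hnu2 hnu3 using hk
  refine ⟨CanS D B, hS, ?_, fun n => nu (Nat.unpair n).1 (Nat.unpair n).2,
    fun n => hnu1 _ _, ?_, ?_⟩
  · intro y
    obtain ⟨γ, hγ⟩ := (hf0S y).2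
    exact ⟨γ, by rw [hγ]; exact (hf0S y).1⟩
  · intro n y
    have h8 : nu (Nat.unpair n).1 (Nat.unpair n).2 y • y = f' (Nat.unpair n).1 y := hnu2 _ _ _
    change nu (Nat.unpair n).1 (Nat.unpair n).2 y • y ∈ CanS D B
    rw [h8]
    exact (hf'S _ y).1
  · intro y γ hγ O hO
    obtain ⟨t, i, hti, hz⟩ := hall y γ hγ
    have h8 : f' (Nat.pair t i) y = γ • y := by
      have : f' (Nat.pair t i) y = if h (Nat.unpair (Nat.pair t i)).2 • y ∈
          YY D B (Nat.unpair (Nat.pair t i)).1 then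
        ss D B (Nat.unpair (Nat.pair t i)).1 (h (Nat.unpair (Nat.pair t i)).2 • y) else f0 y := rfl
      rw [this, Nat.unpair_pair, if_pos hti]
      exact hz
    obtain ⟨n, hn⟩ := hnu3 (Nat.pair t i) y γ h8.symm O hO
    refine ⟨Nat.pair (Nat.pair t i) n, ?_⟩
    simp only [Nat.unpair_pair]
    refine ⟨hn, ?_⟩
    have h9 : nu (Nat.pair t i) n y • y = f' (Nat.pair t i) y := hnu2 _ _ _
    rw [h9, h8]

end Pool.Agent.H68.LCS
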