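import Pool.Agent.H1.LCS.BFX
import Pool.Agent.H1.LCS.LCO
import Pool.Agent.H11.LCS.DMR
import Pool.Agent.H13.LCS.LCG
import Pool.Agent.H17.LCS.FLM
import Pool.Agent.H30.LCS.LIT
import Pool.Agent.H36.LCS.FSG
import Pool.Agent.H36.LCS.HIT
import Pool.Agent.H36.LCS.YME
import Pool.Agent.H37.LCS.KEQ
import Pool.Agent.H38.LCS.PTX
import Pool.Agent.H47.LCS.YEX
import Pool.Agent.H48.LCS.RGN
import Pool.Agent.H49.LCS.FAC
import Pool.Agent.H52.LCS.FLC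
import Pool.Agent.H55.LCS.CSM
import Pool.Agent.H55.LCS.FLB
import Pool.Agent.H68.LCS.FME
import Pool.Agent.H57.LCS.FSC
import Pool.Agent.H62.LCS.MPT
import Pool.Agent.H64.LCS.MSL
import Pool.Agent.H68.LCS.CAN
import Pool.Agent.H68.LCS.SEC
import Pool.Agent.H73.LCS.FRP
import Pool.Agent.H75.LCS.FT3
import Pool.Agent.H77.LCS.PRJ
import Pool.Agent.H80.LCS.KCP
import Pool.Agent.H89.LCS.PRX
import Pool.Agent.H96.LCS.SME
import Pool.Agent.H7.LP.Targets3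
import Pool.Agent.H54.LQ.Targets

/-!
# Canonical labels exist: assembly of part A (MP_5607ba_lc, strong transfer)

Rows by many seats: see the imports.
-/

set_option autoImplicit false

open Set Filter Topology

namespace Pool.Agent.H68.LCS

theorem a_PRJ : T_PRJ := Pool.Agent.H77.LCS.pf_PRJ
theorem a_FSG : T_FSG := Pool.Agent.H36.LCS.pf_FSG a_PRJ
theorem a_BFX : T_BFX := Pool.Agent.H1.LCS.pf_BFX
theorem a_PTX : T_PTX := Pool.Agent.H38.LCS.pf_PTX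
theorem a_MSL : T_MSL := Pool.Agent.H64.LCS.pf_MSL
theorem a_MPT : T_MPT := Pool.Agent.H62.LCS.pf_MPT a_PTX a_MSL
theorem a_KCP : T_KCP := Pool.Agent.H80.LCS.pf_KCP
theorem a_KEQ : T_KEQ := Pool.Agent.H37.LCS.pf_KEQ
theorem a_YEX : T_YEX := Pool.Agent.H47.LCS.pf_YEX a_KCP
theorem a_YME : T_YME := Pool.Agent.H36.LCS.pf_YME a_PRJ a_FSG a_KCP
theorem a_SME : T_SME := Pool.Agent.H96.LCS.pf_SME a_PRJ a_KCP a_MPT
theorem a_LCO : T_LCO := Pool.Agent.H1.LCS.pf_LCO a_PTX a_KEQ a_KCP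
theorem a_CSM : T_CSM := Pool.Agent.H55.LCS.pf_CSM a_LCO a_YEX a_YME a_SME
theorem a_DMR : T_DMR := Pool.Agent.H11.LCS.pf_DMR
theorem a_HIT : T_HIT := Pool.Agent.H36.LCS.pf_HIT a_PRJ a_DMR
theorem a_LCG : T_LCG := Pool.Agent.H13.LCS.pf_LCG
theorem a_PRX : T_PRX := Pool.Agent.H89.LCS.pf_PRX a_LCG
theorem a_LIT : T_LIT := Pool.Agent.H30.LCS.pf_LIT
theorem a_RGN : T_RGN := Pool.Agent.H48.LCS.pf_RGN
theorem a_FT3 : T_FT3 := Pool.Agent.H75.LCS.pf_FT3 a_LIT a_RGN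
theorem a_FSC : T_FSC := Pool.Agent.H57.LCS.pf_FSC a_LIT
theorem a_FAC : T_FAC := Pool.Agent.H49.LCS.pf_FAC a_LIT
theorem a_FLC : T_FLC := Pool.Agent.H52.LCS.pf_FLC
theorem a_FME : T_FME := pf_FME a_LIT a_FSC
theorem a_FLB : T_FLB := Pool.Agent.H55.LCS.pf_FLB
theorem a_FLM : T_FLM := Pool.Agent.H17.LCS.pf_FLM
theorem a_FRP : T_FRP := Pool.Agent.H73.LCS.pf_FRP

/-- canonical labels exist -/
theorem a_CAN (h1 : Pool.Agent.H7.LP.T_LAB) (h2 : Pool.Agent.H54.LQ.T_KRN) :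
    Pool.Agent.H7.LQ.T_CAN :=
  pf_CAN (pf_SEC a_LCO a_CSM a_YME a_SME a_HIT h2 a_BFX) a_LCG a_PRX a_FT3 a_FSC a_FAC a_FLC a_FME
    a_FLB a_FLM a_FRP h1

end Pool.Agent.H68.LCS
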