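import Pool.Agent.H7.LP.Defs2

/-!
# MP_5607ba_lc, strong transfer, part A: canonical labels, definitions

Abstract part: a group acts continuously on a space, locally compact modulo the kernel; a Borel set
meets each orbit in a countable set. Concrete part: the space of the closed sets which are invariant
under `R`.
-/

set_option autoImplicit false

open Set Filter Topology
open scoped Pointwise

namespace Pool.Agent.H68.LCS

open Pool.Agent.H93.CP Pool.Agent.H7.LP Pool.Agent.H7.LQ

section Abstract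

/-- `Γ` acts on `F`, and it is locally compact modulo the kernel of the action: `N p` are compact
sets, small modulo the kernel, and open neighbourhoods `W p` of `1` are covered by them. -/
structure LCd (Γ F : Type) [Group Γ] [TopologicalSpace Γ] [MulAction Γ F] where
  N : ℕ → Set Γ
  W : ℕ → Set Γ
  cpt : ∀ p, IsCompact (N p)
  opn : ∀ p, IsOpen (W p)
  one : ∀ p, (1 : Γ) ∈ W p
  cov : ∀ p, ∀ w ∈ W p, ∃ c ∈ N p, ∀ y : F, w • y = c • y
  sml : ∀ O ∈ 𝓝 (1 : Γ), ∃ p, ∀ c ∈ N p, ∃ o ∈ O, ∀ y : F, c • y = o • y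

/-- a countable base with closures -/
structure Bf (F : Type) [TopologicalSpace F] where
  U : ℕ → Set F
  opn : ∀ t, IsOpen (U t)
  bas : ∀ (y : F), ∀ O ∈ 𝓝 y, ∃ t, y ∈ U t ∧ closure (U t) ⊆ O

open Classical in
/-- shrinking of a set -/
noncomputable def sl {F : Type} [TopologicalSpace F] (B : Bf F) (K : Set F) : ℕ → Set F
  | 0 => K
  | n + 1 => if (sl B K n ∩ closure (B.U n)).Nonempty then sl B K n ∩ closure (B.U n)
      else sl B K n

open Classical in
/-- the point selected in a compact set `K`, with default value `d` -/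
noncomputable def slp {F : Type} [TopologicalSpace F] (B : Bf F) (K : Set F) (d : F) : F :=
  if h : ∃ z, ∀ n, z ∈ sl B K n then h.choose else d

variable {Γ F : Type} [Group Γ] [TopologicalSpace Γ] [TopologicalSpace F] [MulAction Γ F]

/-- the symmetric compact set -/
def LCd.C (D : LCd Γ F) : Set Γ := D.N 0 ∪ (D.N 0)⁻¹ ∪ {1}

/-- the points of `U t` whose orbit returns to the closure only near the point -/
def XX (D : LCd Γ F) (B : Bf F) (t : ℕ) : Set F :=
  {y | y ∈ B.U t ∧ ∀ h ∈ D.C * D.C * D.C, h • y ∈ closure (B.U t) → ∃ c ∈ D.C, h • y = c • y}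

/-- the interior of `XX` in the orbits -/
def YY (D : LCd Γ F) (B : Bf F) (t : ℕ) : Set F := {y | ∃ p, ∀ g ∈ D.N p, g • y ∈ XX D B t}

/-- the compact piece of the orbit -/
def KS (D : LCd Γ F) (B : Bf F) (t : ℕ) (y : F) : Set F :=
  {z | z ∈ closure (B.U t) ∧ ∃ h ∈ D.C * D.C, z = h • y}

/-- the selected point of the orbit -/
noncomputable def ss (D : LCd Γ F) (B : Bf F) (t : ℕ) (y : F) : F := slp B (KS D B t y) y

/-- the canonical points -/
def CanS (D : LCd Γ F) (B : Bf F) : Set F :=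
  {z | ∃ (t : ℕ) (γ : Γ), γ • z ∈ YY D B t ∧ ss D B t (γ • z) = z}

/-- countable unions of closed sets -/
def FS {A : Type} [TopologicalSpace A] (E : Set A) : Prop :=
  ∃ f : ℕ → Set A, (∀ n, IsClosed (f n)) ∧ E = ⋃ n, f n

end Abstract

section Fell

variable {G : Type} [Group G] [TopologicalSpace G]

/-- sequences of closed right `R`-invariant sets -/
@[ext]
structure Fe (R : Subgroup G) where
  y : ℕ → Set G
  cl : ∀ n, IsClosed (y n)
  inv : ∀ n, ∀ a ∈ y n, ∀ r ∈ R, a * r ∈ y n

/-- the topology: `y n` meets the open set `U`; `y n` is disjoint from the compact set `D` -/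
instance (R : Subgroup G) : TopologicalSpace (Fe R) :=
  TopologicalSpace.generateFrom
    ({V | ∃ (n : ℕ) (U : Set G), IsOpen U ∧ V = {y : Fe R | (y.y n ∩ U).Nonempty}} ∪
      {V | ∃ (n : ℕ) (D : Set G), IsCompact D ∧ V = {y : Fe R | ¬ (y.y n ∩ D).Nonempty}})

instance (R : Subgroup G) : MeasurableSpace (Fe R) := borel _

instance (R : Subgroup G) : BorelSpace (Fe R) := ⟨rfl⟩

/-- translation -/
def mvF [IsTopologicalGroup G] {R H : Subgroup G} (hP : Piece R H) (h : H) (y : Fe R) : Fe R where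
  y := tr (h : G) y.y
  cl n := (y.cl n).preimage (continuous_mul_const (h : G))
  inv n a ha r hr := by
    have h1 : (h : G)⁻¹ * r * (h : G) ∈ R := by
      have h2 := hP.nor (h : G)⁻¹ (H.inv_mem h.2) r hr
      rwa [inv_inv] at h2
    have h2 := y.inv n (a * h) ha _ h1
    change a * r * h ∈ y.y n
    have h3 : a * (h : G) * ((h : G)⁻¹ * r * (h : G)) = a * r * h := by group
    rwa [h3] at h2

/-- the action of `H` -/
@[reducible] def actF [IsTopologicalGroup G] {R H : Subgroup G} (hP : Piece R H) :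
    MulAction H (Fe R) where
  smul h y := mvF hP h y
  one_smul y := by
    apply Fe.ext
    exact tr_one y.y
  mul_smul a b y := by
    apply Fe.ext
    exact tr_mul (a : G) (b : G) y.y

/-- `H / R` is locally compact, raw form -/
structure LCG (R H : Subgroup G) where
  N : ℕ → Set G
  W : ℕ → Set G
  cpt : ∀ p, IsCompact (N p)
  opn : ∀ p, IsOpen (W p)
  one : ∀ p, (1 : G) ∈ W p
  nH : ∀ p, ∀ c ∈ N p, c ∈ H
  wH : ∀ p, ∀ w ∈ W p, w ∈ H
  cov : ∀ p, ∀ w ∈ W p, ∃ c ∈ N p, ∃ r ∈ R, w = c * r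
  sml : ∀ O ∈ 𝓝 (1 : G), ∃ p, ∀ c ∈ N p, ∃ r ∈ R, c * r ∈ O

/-- a countable system of pairs (open set, compact set) -/
structure Pr (R : Subgroup G) where
  U : ℕ → Set G
  D : ℕ → Set G
  opn : ∀ i, IsOpen (U i)
  cpt : ∀ i, IsCompact (D i)
  cov : ∀ i, ∀ a ∈ U i, ∃ d ∈ D i, ∃ r ∈ R, a = d * r
  bas : ∀ (a : G) (O : Set G), IsOpen O → a ∈ O → ∃ i, a ∈ U i ∧ ∀ d ∈ D i, ∃ r ∈ R, d * r ∈ O

end Fell

end Pool.Agent.H68.LCS
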